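import Pool.Agent.J4H13.LC.Conic

/-!
# Bloch's conjecture for the covers of the plane branched along a smooth conic and lines

Let `C` be a smooth conic in the plane and let `K` be the function field of a surface over `ℂ`, generated by
algebraically independent elements `x`, `y`, a square root `w₀` of `C(1, x, y)` times a product of polynomials
of degree at most `1` in `x` and `y`, and square roots `w i` of products of such polynomials. So the surface is
any Galois cover of `P²` with a group `(ℤ/2)^r` which is branched along `C` and lines; the number and the
configuration of the lines, their position with respect to the conic included, are arbitrary. For instance, if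
there are no lines in the equation of `w₀`, these are the covers with the group `(ℤ/2)^(r-1)` of a smooth
quadric, branched along plane sections by planes through a fixed point outside of the quadric.

Theorem: if `p_g = q = 0`, then all points of every projective surface with the function field `K` (and of
every projective variety which is dominated by it) are rationally equivalent, modulo torsion. By the theorem of
Roitman, `B_0 (X) = 0` and `d (X) = 0` for the smooth model `X`.

Proof. 1. Enough automorphisms: it is enough that the double planes between `ℂ(x, y)` and `K` which have no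
regular forms are unirational. For those which are not branched along `C` this is our `KummerLineCovers`.

2. Let `v² = C l_1 ⋯ l_{2k}` with different lines, `d = k + 1`. A form `Q` of degree `d - 3` with multiplicity at
least `⌊m_P / 2⌋ - 1` at all points `P`, where `m_P` is the multiplicity of the branch curve, gives a regular 2-form
`Q dx dy / v`; this holds at all prime divisors of all models, also at those over the points of contact of the
conic and the lines. Such a form exists by counting conditions, unless (a) all lines pass through one point, or
(b) all lines are in the union of two or three points of a special kind; in case (b) the form is found directly or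
by a second count, except when there are three points of the conic such that each line passes through one of them.

3. In the last case the quadratic Cremona transformation with these three fundamental points maps the conic and
all the lines to lines, and the case of lines applies. In the case (a) with a point outside of the conic, a quadratic
extension of the parameter of the pencil makes the double plane rational; with a point on the conic we are in
the last case again.
-/

namespace Pool.Agent.Results.MP_7ebcb6_ag.ConicLineCovers

open Pool.Agent.J4H13.LA Pool.Agent.W602.GT Pool.Agent.Helper397.HK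

/-- Bloch's conjecture for the covers of the plane with a group `(ℤ/2)^r` branched along a smooth conic and
lines -/
theorem result {K : Type} [Field K] [Algebra ℂ K] (hpg : PgZero K) (hq : QZero K) {x y : K}
    (hxy : AlgebraicIndependent ℂ ![x, y]) {C : MvPolynomial (Fin 3) ℂ} (hC : C.IsHomogeneous 2)
    (hCs : ∀ p : Fin 3 → ℂ, p ≠ 0 → MvPolynomial.eval p C = 0 →
      ∃ i, MvPolynomial.eval p (MvPolynomial.pderiv i C) ≠ 0)
    {w₀ : K} (hw₀ : ∃ (n : ℕ) (l : Fin n → Fin 3 → ℂ), (∀ j, l j ≠ 0) ∧ w₀ ^ 2 =
      MvPolynomial.aeval ![1, x, y] C *
        ∏ j, (algebraMap ℂ K (l j 0) + algebraMap ℂ K (l j 1) * x + algebraMap ℂ K (l j 2) * y))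
    {k : ℕ} {w : Fin k → K}
    (hw : ∀ i, ∃ (n : ℕ) (l : Fin n → Fin 3 → ℂ), (∀ j, l j ≠ 0) ∧ w i ^ 2 =
      ∏ j, (algebraMap ℂ K (l j 0) + algebraMap ℂ K (l j 1) * x + algebraMap ℂ K (l j 2) * y))
    (hK : IntermediateField.adjoin ℂ ({x, y, w₀} ∪ Set.range w) = ⊤)
    {N : ℕ} {X : ProjVar N} {ξ : Fin (N + 1) → K} (hξ : ξ ∈ X.Pts K)
    (hX : ∀ (d : ℕ) (F : MvPolynomial (Fin (N + 1)) ℂ), F.IsHomogeneous d →
      MvPolynomial.aeval ξ F = 0 → F ∈ X.I) (a b : X.Pts ℂ) : cls a = cls b := by
  have h0 : ξ ≠ 0 := hξ.1
  have hI : X.I = (locus ξ h0).I := by
    apply le_antisymm (le_locus hξ)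
    intro F hF
    rw [mem_locus] at hF
    exact X.mem_of_components fun d =>
      hX d _ (MvPolynomial.homogeneousComponent_isHomogeneous d F) (hF d)
  have hXl : X = locus ξ h0 := by
    obtain ⟨I, h1, h2, h3⟩ := X
    cases hI
    rfl
  have key : ∀ Y : ProjVar N, Y = locus ξ h0 → ∀ a b : Y.Pts ℂ, cls a = cls b := by
    rintro _ rfl
    refine Pool.Agent.J4H13.LC.bloch_conic hpg hq hxy hC hCs ?_ ?_ hK ξ h0
    · obtain ⟨n, l, hl, h⟩ := hw₀
      refine ⟨n, l, hl, ?_⟩
      rw [h]
      congr 1
      exact Finset.prod_congr rfl fun j _ => (ev_gp x y (l j)).symm
    · intro i
      obtain ⟨n, l, hl, h⟩ := hw i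
      refine ⟨n, l, hl, ?_⟩
      rw [h]
      exact Finset.prod_congr rfl fun j _ => (ev_gp x y (l j)).symm
  exact key X hXl a b

end Pool.Agent.Results.MP_7ebcb6_ag.ConicLineCovers
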