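import Pool.Agent.J4H13.LC.Cubic

/-!
# Bloch's conjecture for the covers of the plane branched along a smooth cubic and lines

Let `C` be a smooth cubic in the plane and let `K` be the function field of a surface over `ℂ`, generated by
algebraically independent elements `x`, `y`, a square root `w₀` of `C(1, x, y)` times a product of polynomials
of degree at most `1` in `x` and `y`, and square roots `w i` of products of such polynomials. So the surface is
any Galois cover of `P²` with a group `(ℤ/2)^r` which is branched along `C` and lines; the number and the
configuration of the lines, their position with respect to the cubic included, are arbitrary.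

Theorem: if `p_g = q = 0`, then all points of every projective surface with the function field `K` (and of
every projective variety which is dominated by it) are rationally equivalent, modulo torsion. By the theorem of
Roitman, `B_0 (X) = 0` and `d (X) = 0` for the smooth model `X`.

Proof. 1. Enough automorphisms: it is enough that for each double plane `v² = f` between `ℂ(x, y)` and `K` which
has no regular forms, the norm of the Galois group of `K` over `ℂ(x, y, v)` maps all general points to the same
class. If the double plane is unirational, this is clear. For those which are not branched along `C` the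
unirationality is our `KummerLineCovers`.

2. Let `v² = C l_1 ⋯ l_{2k+1}` with different lines, `d = k + 2`. A form `Q` of degree `d - 3` with multiplicity at
least `⌊m_P / 2⌋ - 1` at all points `P`, where `m_P` is the multiplicity of the branch curve, gives a regular 2-form
`Q dx dy / v`. Such a form exists, by counting conditions and an analysis of the extremal cases, unless (a) all lines
pass through a point of `C`, or (b) `2k + 1 = 7`, the lines are the sides and the diagonals of a complete
quadrilateral, and `C` passes through its six vertices.

3. In the case (a) the double plane is a conic bundle over the pencil, rational by the theorem of Tsen. In the case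
(b) it is an Enriques surface, not unirational. Its function field `F` is biquadratic over a field `F₀ = ℂ(X, θ)`,
and `F₀` and the three fields between `F₀` and `F` are unirational (explicit equations). In a Galois closure `E` of
`K` over `F₀`, twice the norm of `Gal(E/F)` is the sum of the norms for the three intermediate fields minus the norm
for `F₀`, which gives what is needed in 1.
-/

namespace Pool.Agent.Results.MP_7ebcb6_ag.CubicLineCovers

open Pool.Agent.J4H13.LA Pool.Agent.W602.GT Pool.Agent.Helper397.HK

/-- Bloch's conjecture for the covers of the plane with a group `(ℤ/2)^r` branched along a smooth cubic and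
lines -/
theorem result {K : Type} [Field K] [Algebra ℂ K] (hpg : PgZero K) (hq : QZero K) {x y : K}
    (hxy : AlgebraicIndependent ℂ ![x, y]) {C : MvPolynomial (Fin 3) ℂ} (hC : C.IsHomogeneous 3)
    (hCs : ∀ p : Fin 3 → ℂ, p ≠ 0 → MvPolynomial.eval p C = 0 →
      ∃ i, MvPolynomial.eval p (MvPolynomial.pderiv i C) ≠ 0)
    {w₀ : K} (hw₀ : ∃ (n : ℕ) (l : Fin n → Fin 3 → ℂ), (∀ j, l j ≠ 0) ∧ w₀ ^ 2 =
      MvPolynomial.aeval ![1, x, y] C *
        ∏ j, (algebraMap ℂ K (l j 0) + algebraMap ℂ K (l j 1) * x + algebraMap ℂ K (l j 2) * y))
    {k : ℕ} {w : Fin k → K}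
    (hw : ∀ i, ∃ (n : ℕ) (l : Fin n → Fin 3 → ℂ), (∀ j, l j ≠ 0) ∧ w i ^ 2 =
      ∏ j, (algebraMap ℂ K (l j 0) + algebraMap ℂ K (l j 1) * x + algebraMap ℂ K (l j 2) * y))
    (hK : IntermediateField.adjoin ℂ ({x, y, w₀} ∪ Set.range w) = ⊤)
    {N : ℕ} {X : ProjVar N} {ξ : Fin (N + 1) → K} (hξ : ξ ∈ X.Pts K)
    (hX : ∀ (d : ℕ) (F : MvPolynomial (Fin (N + 1)) ℂ), F.IsHomogeneous d →
      MvPolynomial.aeval ξ F = 0 → F ∈ X.I) (a b : X.Pts ℂ) : cls a = cls b := by
  have h0 : ξ ≠ 0 := hξ.1
  have hI : X.I = (locus ξ h0).I := by
    apply le_antisymm (le_locus hξ)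
    intro F hF
    rw [mem_locus] at hF
    exact X.mem_of_components fun d =>
      hX d _ (MvPolynomial.homogeneousComponent_isHomogeneous d F) (hF d)
  have hXl : X = locus ξ h0 := by
    obtain ⟨I, h1, h2, h3⟩ := X
    cases hI
    rfl
  have key : ∀ Y : ProjVar N, Y = locus ξ h0 → ∀ a b : Y.Pts ℂ, cls a = cls b := by
    rintro _ rfl
    refine Pool.Agent.J4H13.LC.bloch_cubic hpg hq hxy hC hCs ?_ ?_ hK ξ h0
    · obtain ⟨n, l, hl, h⟩ := hw₀
      refine ⟨n, l, hl, ?_⟩
      rw [h]
      congr 1
      exact Finset.prod_congr rfl fun j _ => (ev_gp x y (l j)).symm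
    · intro i
      obtain ⟨n, l, hl, h⟩ := hw i
      refine ⟨n, l, hl, ?_⟩
      rw [h]
      exact Finset.prod_congr rfl fun j _ => (ev_gp x y (l j)).symm
  exact key X hXl a b

end Pool.Agent.Results.MP_7ebcb6_ag.CubicLineCovers
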