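import Pool.Agent.J4H13.LA.Main

/-!
# Bloch's conjecture for the covers of the plane branched along lines

Let `K` be the function field of a surface over `ℂ`, generated by algebraically independent elements `x`, `y`
and by square roots `w i` of products of polynomials of degree at most `1` in `x` and `y`. So the surface is
any Galois cover of `P²` with the group `(ℤ/2)^r` which is branched along lines; the number and the
configuration of the lines are arbitrary.

Theorem: if `p_g = q = 0`, then all points of every projective surface with the function field `K` (and of
every projective variety which is dominated by it) are rationally equivalent, modulo torsion.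

By the theorem of Roitman, the degree zero part `B_0 (X)` of the smooth model `X` is then `0` and `d (X) = 0`.

Proof. 1. Enough automorphisms: the group `G = (ℤ/2)^r` acts on `K`; the identity is a combination with
rational coefficients of the norm elements of the kernels of the characters of `G`, so it is enough that the
double planes `v² = product of lines` between `ℂ(x, y)` and `K` have the property (with a moving argument for
the zero-cycles, carried out over the function field).

2. A double plane `v² = l_1 ⋯ l_{2d}` with the lines `l_i` pairwise different, whose pull back to `K` has no
2-forms, has a point through which there are at least `2d - 2` of the lines. Suppose not. A form `A` of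
degree `d - 3` with multiplicity at least `⌊r_P / 2⌋ - 1` at each point `P` through which there are `r_P ≥ 4`
lines gives the regular 2-form `A dx ∧ dy / v`. Such a form is constructed as a product of lines by
induction: a counting argument shows that there is a line of the arrangement whose removal, with a second
line, reduces the problem.

3. If there is such a point, the projection from it gives an equation `v² = f (s) q (s, t)`, where `q` is a
product of at most two polynomials which are linear in `t`. If `q = 1`, the curve `v² = f (s)` is rational
because of the condition on the 1-forms. Otherwise the double plane is rational, since it is a conic with a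
point over `ℂ(s)`.
-/

namespace Pool.Agent.Results.MP_7ebcb6_ag.KummerLineCovers

open Pool.Agent.J4H13.LA Pool.Agent.W602.GT Pool.Agent.Helper397.HK

/-- Bloch's conjecture for the covers of the plane with the group `(ℤ/2)^r` branched along lines -/
theorem result {K : Type} [Field K] [Algebra ℂ K] (hpg : PgZero K) (hq : QZero K) {x y : K}
    (hxy : AlgebraicIndependent ℂ ![x, y]) {k : ℕ} {w : Fin k → K}
    (hw : ∀ i, ∃ (n : ℕ) (l : Fin n → Fin 3 → ℂ), (∀ j, l j ≠ 0) ∧ w i ^ 2 =
      ∏ j, (algebraMap ℂ K (l j 0) + algebraMap ℂ K (l j 1) * x + algebraMap ℂ K (l j 2) * y))
    (hK : IntermediateField.adjoin ℂ ({x, y} ∪ Set.range w) = ⊤)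
    {N : ℕ} {X : ProjVar N} {ξ : Fin (N + 1) → K} (hξ : ξ ∈ X.Pts K)
    (hX : ∀ (d : ℕ) (F : MvPolynomial (Fin (N + 1)) ℂ), F.IsHomogeneous d →
      MvPolynomial.aeval ξ F = 0 → F ∈ X.I) (a b : X.Pts ℂ) : cls a = cls b := by
  have h0 : ξ ≠ 0 := hξ.1
  have hI : X.I = (locus ξ h0).I := by
    apply le_antisymm (le_locus hξ)
    intro F hF
    rw [mem_locus] at hF
    exact X.mem_of_components fun d =>
      hX d _ (MvPolynomial.homogeneousComponent_isHomogeneous d F) (hF d)
  have hXl : X = locus ξ h0 := by
    obtain ⟨I, h1, h2, h3⟩ := X
    cases hI
    rfl
  have key : ∀ Y : ProjVar N, Y = locus ξ h0 → ∀ a b : Y.Pts ℂ, cls a = cls b := by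
    rintro _ rfl
    refine bloch_lines hpg hq hxy ?_ hK ξ h0
    intro i
    obtain ⟨n, l, hl, h⟩ := hw i
    refine ⟨n, l, hl, ?_⟩
    rw [h]
    exact Finset.prod_congr rfl fun j _ => (ev_gp x y (l j)).symm
  exact key X hXl a b

end Pool.Agent.Results.MP_7ebcb6_ag.KummerLineCovers
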