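import Pool.Agent.J4H13.TL.Final

/-!
# Bloch's conjecture for the triple covers of the plane branched along lines

Let `K` be the function field of a surface over `ℂ`, generated by algebraically independent elements `x`, `y`
and by cube roots `w i` of products of polynomials of degree at most `1` in `x` and `y`. So the surface is
any Galois cover of `P²` with the group `(ℤ/3)^r` which is branched along lines; the number and the
configuration of the lines are arbitrary.

Theorem: if `p_g = q = 0`, then all points of every projective surface with the function field `K` (and of
every projective variety which is dominated by it) are rationally equivalent, modulo torsion. By the theorem of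
Roitman, the degree zero part `B_0 (X)` of the smooth model `X` is then `0` and `d (X) = 0`.

Proof. 1. As for the group `(ℤ/2)^r` (`Pool.Agent.Results.MP_7ebcb6_ag.KummerLineCovers`), it is enough that the
triple planes `v³ = product of lines` between `ℂ(x, y)` and `K` are unirational.

2. Let `v³ = ∏ l_i^{w_i}`, `w_i ∈ {1, 2}`, with `a` lines of weight 1 and `b` lines of weight 2,
`a + 2 b = 3 k`, `2 a + b = 3 k'`. A form `A` of degree `k - 3` with multiplicity at least `⌊W_P / 3⌋ - 1` at each
point `P`, where `W_P` is the sum of the weights of the lines through `P`, gives the regular 2-form
`A dx ∧ dy / v`; the same for the complementary weights `3 - w_i` and `k'`.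

3. Suppose that there are no such forms for both weights. Then either all lines but at most two, or all
lines but three of the same weight, pass through a point, or the lines are the exceptional arrangement: three lines
`b_0, b_1, b_2` of weight 2 (or 1) in general position, two further lines through each vertex of this triangle, and a point on
three of these. This is proved with a weighted counting argument which shows that there are at least three
bad lines of each weight (lines with at most four points of the arrangement), a combinatorial analysis (all
points are on at most four lines, `|a - b|` is `0` or `3`, and at most 12 lines are left), and two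
theorems of plane geometry over `ℂ`: if 12 lines form an affine plane of order 3, then no three parallel lines are
concurrent, and a similar statement for a 3 × 3 grid minus a point.

4. In the first two cases the projection from the point gives `y³ = e(s) U (1 - U)` or a simpler equation. The
forms `h(s) ds ∧ dU / y²` and `dU / y²` show that `e(s)` has one of six types, and the triple plane is then
rational by an explicit parametrization. The exceptional arrangement is transformed into the first two cases
by the quadratic Cremona transformation with the base points in the vertices of the triangle.
-/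

namespace Pool.Agent.Results.MP_7ebcb6_ag.TripleLineCovers

open Pool.Agent.J4H13.LA Pool.Agent.W602.GT Pool.Agent.Helper397.HK

/-- Bloch's conjecture for the covers of the plane with the group `(ℤ/3)^r` branched along lines -/
theorem result {K : Type} [Field K] [Algebra ℂ K] (hpg : PgZero K) (hq : QZero K) {x y : K}
    (hxy : AlgebraicIndependent ℂ ![x, y]) {k : ℕ} {w : Fin k → K}
    (hw : ∀ i, ∃ (n : ℕ) (l : Fin n → Fin 3 → ℂ), (∀ j, l j ≠ 0) ∧ w i ^ 3 =
      ∏ j, (algebraMap ℂ K (l j 0) + algebraMap ℂ K (l j 1) * x + algebraMap ℂ K (l j 2) * y))
    (hK : IntermediateField.adjoin ℂ ({x, y} ∪ Set.range w) = ⊤)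
    {N : ℕ} {X : ProjVar N} {ξ : Fin (N + 1) → K} (hξ : ξ ∈ X.Pts K)
    (hX : ∀ (d : ℕ) (F : MvPolynomial (Fin (N + 1)) ℂ), F.IsHomogeneous d →
      MvPolynomial.aeval ξ F = 0 → F ∈ X.I) (a b : X.Pts ℂ) : cls a = cls b := by
  have h0 : ξ ≠ 0 := hξ.1
  have hI : X.I = (locus ξ h0).I := by
    apply le_antisymm (le_locus hξ)
    intro F hF
    rw [mem_locus] at hF
    exact X.mem_of_components fun d =>
      hX d _ (MvPolynomial.homogeneousComponent_isHomogeneous d F) (hF d)
  have hXl : X = locus ξ h0 := by
    obtain ⟨I, h1, h2, h3⟩ := X
    cases hI
    rfl
  have key : ∀ Y : ProjVar N, Y = locus ξ h0 → ∀ a b : Y.Pts ℂ, cls a = cls b := by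
    rintro _ rfl
    refine Pool.Agent.J4H13.TL.bloch3 hpg hq hxy ?_ hK ξ h0
    intro i
    obtain ⟨n, l, hl, h⟩ := hw i
    refine ⟨n, l, hl, ?_⟩
    rw [h]
    exact Finset.prod_congr rfl fun j _ => (ev_gp x y (l j)).symm
  exact key X hXl a b

end Pool.Agent.Results.MP_7ebcb6_ag.TripleLineCovers
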